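import Pool.Agent.Q72.SH.Rat
import Pool.Agent.Q51.HG.All

/-!
Linear changes of coordinates, and orbits in strata of general hypersurfaces.
-/

set_option autoImplicit false

namespace Pool.Agent.Q72.GH

open Finset MvPolynomial
open Pool.Agent.Q72.SH Pool.Agent.H533R3.SL
open Pool.Agent.W603.BPR (EntireCurve)

variable {a b : ℕ}

/-- the coordinates of a linear map as linear forms -/
noncomputable def pm (T : (Fin a → ℂ) →ₗ[ℂ] (Fin b → ℂ)) (i : Fin b) : MvPolynomial (Fin a) ℂ :=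
  ∑ j, C (T (Pi.single j 1) i) * X j

theorem lin_sum (T : (Fin a → ℂ) →ₗ[ℂ] (Fin b → ℂ)) (x : Fin a → ℂ) (i : Fin b) :
    T x i = ∑ j, T (Pi.single j 1) i * x j := by
  have h1 : x = ∑ j, x j • (Pi.single j 1 : Fin a → ℂ) := by
    funext l
    simp [Finset.sum_apply, Pi.single_apply]
  conv_lhs => rw [h1]
  rw [map_sum, Finset.sum_apply]
  refine Finset.sum_congr rfl fun j _ => ?_
  rw [map_smul, Pi.smul_apply, smul_eq_mul, mul_comm]

theorem eval_pm (T : (Fin a → ℂ) →ₗ[ℂ] (Fin b → ℂ)) (x : Fin a → ℂ) (i : Fin b) :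
    eval x (pm T i) = T x i := by
  unfold pm
  rw [lin_sum, map_sum]
  refine Finset.sum_congr rfl fun j _ => ?_
  rw [map_mul, eval_C, eval_X]

theorem pm_hom (T : (Fin a → ℂ) →ₗ[ℂ] (Fin b → ℂ)) (i : Fin b) : (pm T i).IsHomogeneous 1 := by
  unfold pm
  refine IsHomogeneous.sum _ _ _ fun j _ => ?_
  simpa using (isHomogeneous_C (Fin a) (T (Pi.single j 1) i)).mul (isHomogeneous_X ℂ j)

/-- substitution of a linear map in a polynomial -/
noncomputable def pull (T : (Fin a → ℂ) →ₗ[ℂ] (Fin b → ℂ)) (F : MvPolynomial (Fin b) ℂ) :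
    MvPolynomial (Fin a) ℂ := aeval (pm T) F

theorem eval_pull (T : (Fin a → ℂ) →ₗ[ℂ] (Fin b → ℂ)) (x : Fin a → ℂ)
    (F : MvPolynomial (Fin b) ℂ) : eval x (pull T F) = eval (T x) F := by
  unfold pull
  rw [← aeval_eq_eval, ← aeval_eq_eval, comp_aeval_apply]
  congr 2
  funext i
  rw [aeval_eq_eval]
  exact eval_pm T x i

theorem pull_hom (T : (Fin a → ℂ) →ₗ[ℂ] (Fin b → ℂ)) {F : MvPolynomial (Fin b) ℂ} {e : ℕ}
    (hF : F.IsHomogeneous e) : (pull T F).IsHomogeneous e := by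
  have h := hF.aeval (pm T) (n := 1) fun i => pm_hom T i
  rwa [one_mul] at h

variable {N k q : ℕ}

/-- the equations of the image of the set `F i = 0`, `i ∈ Z`, under `ℓ`, with left inverse `S` -/
def eqs (F : Fin q → MvPolynomial (Fin (N + 1)) ℂ) (Z : Finset (Fin q))
    (ℓ : (Fin (N + 1) → ℂ) →ₗ[ℂ] (Fin (k + 1) → ℂ)) (S : (Fin (k + 1) → ℂ) →ₗ[ℂ] (Fin (N + 1) → ℂ)) :
    Set (MvPolynomial (Fin (k + 1)) ℂ) :=
  {G | ∃ i, G = X i - pm (ℓ ∘ₗ S) i} ∪ {G | ∃ i ∈ Z, G = pull S (F i)}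

/-- the inequality -/
noncomputable def ineq (F : Fin q → MvPolynomial (Fin (N + 1)) ℂ) (Z : Finset (Fin q))
    (S : (Fin (k + 1) → ℂ) →ₗ[ℂ] (Fin (N + 1) → ℂ)) : MvPolynomial (Fin (k + 1)) ℂ :=
  ∏ i ∈ Zᶜ, pull S (F i)

/-- The stratum `F i = 0`, `i ∈ Z`, `F i ≠ 0`, `i ∉ Z` -/
def St (F : Fin q → MvPolynomial (Fin (N + 1)) ℂ) (Z : Finset (Fin q)) :
    Set (MvPolynomial (Fin (N + 1)) ℂ) := {G | ∃ i ∈ Z, G = F i}

section

variable {F : Fin q → MvPolynomial (Fin (N + 1)) ℂ} {Z : Finset (Fin q)}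
  {ℓ : (Fin (N + 1) → ℂ) →ₗ[ℂ] (Fin (k + 1) → ℂ)}
  {S : (Fin (k + 1) → ℂ) →ₗ[ℂ] (Fin (N + 1) → ℂ)} {d : Fin q → ℕ} {f : ℂ → Fin (N + 1) → ℂ}

theorem eqs_hom (hF : ∀ i, (F i).IsHomogeneous (d i)) (G : MvPolynomial (Fin (k + 1)) ℂ)
    (hG : G ∈ eqs F Z ℓ S) : ∃ e ≤ ∑ i, d i + 1, G.IsHomogeneous e := by
  rcases hG with ⟨i, rfl⟩ | ⟨i, -, rfl⟩
  · exact ⟨1, by omega, (isHomogeneous_X ℂ i).sub (pm_hom _ i)⟩
  · refine ⟨d i, ?_, pull_hom S (hF i)⟩
    have := Finset.single_le_sum (f := d) (fun _ _ => Nat.zero_le _) (Finset.mem_univ i)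
    omega

theorem ineq_hom (hF : ∀ i, (F i).IsHomogeneous (d i)) :
    (ineq F Z S).IsHomogeneous (∑ i ∈ Zᶜ, d i) :=
  IsHomogeneous.prod _ _ _ fun i _ => pull_hom S (hF i)

theorem eval_ineq (y : Fin (k + 1) → ℂ) : eval y (ineq F Z S) = ∏ i ∈ Zᶜ, eval (S y) (F i) := by
  unfold ineq
  rw [map_prod]
  exact Finset.prod_congr rfl fun i _ => eval_pull S y (F i)

/-- the curve in the larger space -/
theorem ec_lift (hS : ∀ x, S (ℓ x) = x) (hf : EntireCurve (Ideal.span (St F Z)) (∏ i ∈ Zᶜ, F i) f) :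
    EntireCurve (Ideal.span (eqs F Z ℓ S)) (ineq F Z S) fun z => ℓ (f z) := by
  obtain ⟨h1, h2, z, w, h3⟩ := hf
  refine ⟨?_, fun z => ⟨?_, ?_, ?_⟩, z, w, ?_⟩
  · exact (LinearMap.toContinuousLinearMap ℓ).differentiable.comp h1
  · intro h0
    apply (h2 z).1
    have h4 := congrArg S h0
    change S (ℓ (f z)) = S 0 at h4
    rwa [hS, map_zero] at h4
  · intro H hH
    have h4 : Ideal.span (eqs F Z ℓ S) ≤ RingHom.ker (eval (ℓ (f z))) := by
      rw [Ideal.span_le]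
      rintro G (⟨i, rfl⟩ | ⟨i, hi, rfl⟩)
      · change eval (ℓ (f z)) _ = 0
        rw [map_sub, eval_X, eval_pm]
        change ℓ (f z) i - ℓ (S (ℓ (f z))) i = 0
        rw [hS, sub_self]
      · change eval (ℓ (f z)) _ = 0
        rw [eval_pull, hS]
        exact (h2 z).2.1 _ (Ideal.subset_span ⟨i, hi, rfl⟩)
    exact h4 hH
  · change eval (ℓ (f z)) (ineq F Z S) ≠ 0
    rw [eval_ineq, hS]
    have h4 := (h2 z).2.2
    rwa [map_prod] at h4
  · intro c hc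
    apply h3 c
    have h4 := congrArg S hc
    change S (ℓ (f z)) = S (c • ℓ (f w)) at h4
    rwa [map_smul, hS, hS] at h4

/-- no nonconstant curves with `r` terms -/
def NoSparse (F : Fin q → MvPolynomial (Fin (N + 1)) ℂ) (Z : Finset (Fin q)) (r : ℕ) : Prop :=
  ∀ (c : Fin r → Fin (N + 1) → ℂ) (l : Fin r → ℕ), (∀ i ∈ Z, aeval (cur c l) (F i) = 0) →
    (∀ i, i ∉ Z → ∃ v, (aeval (cur c l) (F i)).coeff v ≠ 0 ∧
      ∀ t, t ≠ v → (aeval (cur c l) (F i)).coeff t = 0) →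
    ∀ i1 i2, cur c l i1 * Polynomial.C (∑ j, c j i2) = cur c l i2 * Polynomial.C (∑ j, c j i1)

theorem eval_cur {r : ℕ} (c : Fin r → Fin (N + 1) → ℂ) (l : Fin r → ℕ) (i : Fin (N + 1)) (t : ℂ) :
    (cur c l i).eval t = ∑ j, c j i * t ^ l j := by
  unfold cur
  rw [Polynomial.eval_finsetSum]
  exact Finset.sum_congr rfl fun j _ => by
    rw [Polynomial.eval_mul, Polynomial.eval_C, Polynomial.eval_pow, Polynomial.eval_X]

theorem eval_aeval_cur {r : ℕ} (c : Fin r → Fin (N + 1) → ℂ) (l : Fin r → ℕ) (t : ℂ)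
    (G : MvPolynomial (Fin (N + 1)) ℂ) :
    (aeval (cur c l) G : Polynomial ℂ).eval t = eval (fun i => ∑ j, c j i * t ^ l j) G := by
  have h1 : (aeval (cur c l) G : Polynomial ℂ).eval t =
      (Polynomial.aeval t : Polynomial ℂ →ₐ[ℂ] ℂ) (aeval (cur c l) G) := by
    rw [Polynomial.coe_aeval_eq_eval]
  rw [h1, comp_aeval_apply, ← aeval_eq_eval]
  congr 2
  funext i
  rw [Polynomial.coe_aeval_eq_eval]
  exact eval_cur c l i t

/-- a divisor of a monomial is a monomial -/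
theorem mono_of_dvd {p : Polynomial ℂ} {v : ℕ} {c : ℂ} (hc : c ≠ 0)
    (h : p ∣ Polynomial.C c * Polynomial.X ^ v) :
    ∃ u, p.coeff u ≠ 0 ∧ ∀ t, t ≠ u → p.coeff t = 0 := by
  have h1 : p ∣ Polynomial.X ^ v := by
    obtain ⟨s, hs⟩ := h
    refine ⟨Polynomial.C c⁻¹ * s, ?_⟩
    have h2 : Polynomial.C c⁻¹ * (Polynomial.C c * Polynomial.X ^ v) = Polynomial.X ^ v := by
      rw [← mul_assoc, ← Polynomial.C_mul, inv_mul_cancel₀ hc, Polynomial.C_1, one_mul]
    rw [← h2, hs]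
    ring
  obtain ⟨u, -, hu⟩ := (dvd_prime_pow Polynomial.prime_X v).1 h1
  obtain ⟨w, hw⟩ := hu
  obtain ⟨e, he, he2⟩ := Polynomial.isUnit_iff.1 w.isUnit
  have h3 : p = Polynomial.C e⁻¹ * Polynomial.X ^ u := by
    rw [← hw, ← he2]
    have he0 : e ≠ 0 := he.ne_zero
    calc p = p * (Polynomial.C e * Polynomial.C e⁻¹) := by
          rw [← Polynomial.C_mul, mul_inv_cancel₀ he0, Polynomial.C_1, mul_one]
      _ = _ := by ring
  have he0 : e ≠ 0 := he.ne_zero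
  refine ⟨u, ?_, fun t ht => ?_⟩
  · rw [h3, Polynomial.coeff_C_mul, Polynomial.coeff_X_pow, if_pos rfl, mul_one]
    exact inv_ne_zero he0
  · rw [h3, Polynomial.coeff_C_mul, Polynomial.coeff_X_pow, if_neg ht, mul_zero]

theorem mono_of_prod {ι : Type} (s : Finset ι) (P : ι → Polynomial ℂ) {v : ℕ} {c : ℂ} (hc : c ≠ 0)
    (h : ∏ i ∈ s, P i ∣ Polynomial.C c * Polynomial.X ^ v) {i : ι} (hi : i ∈ s) :
    ∃ u, (P i).coeff u ≠ 0 ∧ ∀ t, t ≠ u → (P i).coeff t = 0 :=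
  mono_of_dvd hc ((Finset.dvd_prod_of_mem P hi).trans h)

/-- **No orbits of one-parameter groups.** -/
theorem not_weighted (hF : ∀ i, (F i).IsHomogeneous (d i)) (hS : ∀ x, S (ℓ x) = x)
    (hno : NoSparse F Z (k + 1)) (hf : EntireCurve (Ideal.span (St F Z)) (∏ i ∈ Zᶜ, F i) f) :
    ¬ Weighted (∑ i, d i + 1 + 1) (eqs F Z ℓ S) (ineq F Z S) fun z => ℓ (f z) := by
  rintro ⟨b, hb1, hb2, i, j, hi, hj, hij⟩
  have hg := ec_lift hS hf
  obtain ⟨z, hzi, hzj⟩ := exists_off hg.1 hi hj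
  set x : Fin (k + 1) → ℂ := ℓ (f z) with hx
  set D : ℕ := ∑ i, d i + 1 + 1 with hD
  set B : ℕ := ∑ l : Fin (k + 1), (b (some l)).natAbs with hB
  have hBl : ∀ l : Fin (k + 1), 0 ≤ b (some l) + B := by
    intro l
    have h3 : (b (some l)).natAbs ≤ B := Finset.single_le_sum
      (f := fun l : Fin (k + 1) => (b (some l)).natAbs) (fun _ _ => Nat.zero_le _)
      (Finset.mem_univ l)
    omega
  set nn : Fin (k + 1) → ℕ := fun l => (b (some l) + B).toNat with hnn'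
  have hnn : ∀ l, (nn l : ℤ) = b (some l) + B := fun l => Int.toNat_of_nonneg (hBl l)
  -- the orbit
  have hLeE : ∀ G ∈ eqs F Z ℓ S, LeD D G := by
    intro G hG
    obtain ⟨e, he, hGe⟩ := eqs_hom hF G hG
    exact leD_of_homog hGe he
  have hLeQ : LeD D (ineq F Z S) := by
    refine leD_of_homog (ineq_hom hF) ?_
    have : ∑ i ∈ Zᶜ, d i ≤ ∑ i, d i :=
      Finset.sum_le_sum_of_subset (Finset.subset_univ _)
    omega
  set y : ℂ → Fin (k + 1) → ℂ := fun t l => t ^ b (some l) * x l with hy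
  have hy1 : ∀ t, t ≠ 0 → ∀ G ∈ eqs F Z ℓ S, eval (y t) G = 0 := fun t ht G hG =>
    orbit_zero (hLeE G hG) (fun k => hb1 G hG k z) ht
  have hyS : ∀ t, t ≠ 0 → ℓ (S (y t)) = y t := by
    intro t ht
    funext l
    have h1 := hy1 t ht _ (Or.inl ⟨l, rfl⟩)
    rw [map_sub, eval_X, eval_pm, LinearMap.comp_apply] at h1
    exact (sub_eq_zero.1 h1).symm
  have hyF : ∀ t, t ≠ 0 → ∀ i ∈ Z, eval (S (y t)) (F i) = 0 := by
    intro t ht i hi
    have h1 := hy1 t ht _ (Or.inr ⟨i, hi, rfl⟩)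
    rwa [eval_pull] at h1
  have hyQ : ∀ t, t ≠ 0 → eval (y t) (ineq F Z S) = t ^ b none * eval x (ineq F Z S) := fun t ht =>
    orbit_mon hLeQ (fun k hk => hb2 k hk z) ht
  have hQx : eval x (ineq F Z S) ≠ 0 := (hg.2.1 z).2.2
  -- the curve with `k + 1` terms
  set c : Fin (k + 1) → Fin (N + 1) → ℂ := fun j i => S (Pi.single j 1) i * x j with hc
  have hcur : ∀ t : ℂ, t ≠ 0 → (fun i => ∑ j, c j i * t ^ nn j) = t ^ B • S (y t) := by
    intro t ht
    funext i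
    rw [Pi.smul_apply, lin_sum, Finset.smul_sum]
    refine Finset.sum_congr rfl fun j _ => ?_
    rw [hc, hy, smul_eq_mul]
    change S (Pi.single j 1) i * x j * t ^ nn j =
      t ^ B * (S (Pi.single j 1) i * (t ^ b (some j) * x j))
    rw [← zpow_natCast t (nn j), hnn j, zpow_add₀ ht, zpow_natCast]
    ring
  have hsm : ∀ (i : Fin q) (e : ℂ) (v : Fin (N + 1) → ℂ),
      eval (e • v) (F i) = e ^ d i * eval v (F i) := by
    intro i e v
    exact eval_scale (hF i) e v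
  have hz1 : ∀ i ∈ Z, aeval (cur c nn) (F i) = 0 := by
    intro i hi
    apply Polynomial.eq_zero_of_infinite_isRoot
    refine Set.Infinite.mono (s := {u : ℂ | u ≠ 0}) ?_ ?_
    · intro u hu
      change (aeval (cur c nn) (F i) : Polynomial ℂ).eval u = 0
      rw [eval_aeval_cur, hcur u hu, hsm, hyF u hu i hi, mul_zero]
    · exact (Set.finite_singleton (0 : ℂ)).infinite_compl
  have hprod : ∃ (e : ℂ) (v : ℕ), e ≠ 0 ∧ (∏ i ∈ Zᶜ, (aeval (cur c nn) (F i) : Polynomial ℂ)) ∣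
        Polynomial.C e * Polynomial.X ^ v := by
    set M : ℕ := (b none).natAbs with hM
    have hM0 : 0 ≤ b none + M := by omega
    refine ⟨eval x (ineq F Z S), (b none + M).toNat + B * ∑ i ∈ Zᶜ, d i, hQx,
      Polynomial.X ^ M, ?_⟩
    apply Polynomial.eq_of_infinite_eval_eq
    refine Set.Infinite.mono (s := {u : ℂ | u ≠ 0}) ?_
      ((Set.finite_singleton (0 : ℂ)).infinite_compl)
    intro u hu
    have hu0 : u ≠ 0 := hu
    change Polynomial.eval u _ = Polynomial.eval u _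
    rw [Polynomial.eval_mul, Polynomial.eval_mul, Polynomial.eval_C, Polynomial.eval_pow,
      Polynomial.eval_pow, Polynomial.eval_X, Polynomial.eval_prod]
    have h1 : ∏ i ∈ Zᶜ, (aeval (cur c nn) (F i) : Polynomial ℂ).eval u =
        u ^ (B * ∑ i ∈ Zᶜ, d i) * eval (y u) (ineq F Z S) := by
      rw [eval_ineq, Finset.mul_sum, ← Finset.prod_pow_eq_pow_sum, ← Finset.prod_mul_distrib]
      refine Finset.prod_congr rfl fun i _ => ?_
      rw [eval_aeval_cur, hcur u hu0, hsm, pow_mul]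
    rw [h1, hyQ u hu0, pow_add, ← zpow_natCast u (b none + M).toNat, Int.toNat_of_nonneg hM0,
      zpow_add₀ hu0, zpow_natCast]
    ring
  have hz2 : ∀ i, i ∉ Z → ∃ v, (aeval (cur c nn) (F i)).coeff v ≠ 0 ∧
      ∀ t, t ≠ v → (aeval (cur c nn) (F i)).coeff t = 0 := by
    intro i hi
    obtain ⟨e, v, he, h⟩ := hprod
    exact mono_of_prod _ (fun i => (aeval (cur c nn) (F i) : Polynomial ℂ)) he h
      (Finset.mem_compl.2 hi)
  have hconst := hno c nn hz1 hz2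
  -- the orbit is constant
  have hy11 : y 1 = x := by
    funext l
    rw [hy]
    change (1 : ℂ) ^ b (some l) * x l = x l
    rw [one_zpow, one_mul]
  have h1 : (fun i => ∑ j, c j i) = f z := by
    have h2 := hcur 1 one_ne_zero
    rw [hy11, hx, hS, one_pow, one_smul] at h2
    rw [← h2]
    funext i
    exact Finset.sum_congr rfl fun j _ => by rw [one_pow, mul_one]
  have h2 : ∀ i1 i2, S (y 2) i1 * f z i2 = S (y 2) i2 * f z i1 := by
    intro i1 i2
    have h3 := congrArg (Polynomial.eval 2) (hconst i1 i2)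
    rw [Polynomial.eval_mul, Polynomial.eval_mul, Polynomial.eval_C, Polynomial.eval_C,
      eval_cur, eval_cur] at h3
    have h4 := hcur 2 two_ne_zero
    have h5 : ∀ i, ∑ j, c j i * 2 ^ nn j = 2 ^ B * S (y 2) i := fun i => congrFun h4 i
    have h6 : ∀ i, ∑ j, c j i = f z i := fun i => congrFun h1 i
    rw [h5, h5, h6, h6] at h3
    have h7 : (2 : ℂ) ^ B ≠ 0 := pow_ne_zero _ two_ne_zero
    apply mul_left_cancel₀ h7
    linear_combination h3
  obtain ⟨i0, hi0⟩ : ∃ i0, f z i0 ≠ 0 := by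
    by_contra hcon
    push Not at hcon
    exact (hf.2.1 z).1 (funext hcon)
  have h3 : S (y 2) = (S (y 2) i0 / f z i0) • f z := by
    funext i1
    rw [Pi.smul_apply, smul_eq_mul, div_mul_eq_mul_div, eq_div_iff hi0]
    exact h2 i1 i0
  have h4 : y 2 = (S (y 2) i0 / f z i0) • x := by
    have h5 := congrArg ℓ h3
    rw [hyS 2 two_ne_zero, map_smul] at h5
    exact h5
  have h5 : ∀ l, x l ≠ 0 → (2 : ℂ) ^ b (some l) = S (y 2) i0 / f z i0 := by
    intro l hl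
    have h6 := congrFun h4 l
    rw [Pi.smul_apply, smul_eq_mul] at h6
    exact mul_right_cancel₀ hl h6
  have h6 : (2 : ℂ) ^ b (some i) = 2 ^ b (some j) := (h5 i hzi).trans (h5 j hzj).symm
  apply hij
  have h7 : ((2 : ℝ) ^ b (some i)) = 2 ^ b (some j) := by
    have h8 := congrArg (fun w : ℂ => ‖w‖) h6
    simpa using h8
  exact zpow_right_injective₀ (by norm_num) (by norm_num) h7

end

end Pool.Agent.Q72.GH
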