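import Pool.Agent.Q72.GH.Lin
import Pool.Agent.Q72.SH.Rig

/-!
Entire curves in strata of general hypersurfaces with given sections by arbitrary hyperplanes.
-/

set_option autoImplicit false

namespace Pool.Agent.Q72.GH

open Finset MvPolynomial
open Pool.Agent.Q72.SH Pool.Agent.H533R3.SL Pool.Agent.TH143.GT Pool.Agent.W602.GT
open Pool.Agent.W603.BPR (EntireCurve)

variable {N k q : ℕ} {F : Fin q → MvPolynomial (Fin (N + 1)) ℂ} {Z : Finset (Fin q)}
  {ℓ : (Fin (N + 1) → ℂ) →ₗ[ℂ] (Fin (k + 1) → ℂ)}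
  {S : (Fin (k + 1) → ℂ) →ₗ[ℂ] (Fin (N + 1) → ℂ)} {d : Fin q → ℕ} {f : ℂ → Fin (N + 1) → ℂ}

/-- finitely many curves up to diagonal matrices -/
theorem diag (d : Fin q → ℕ) (k : ℕ) : ∃ M : ℕ, ∀ (N : ℕ)
    (F : Fin q → MvPolynomial (Fin (N + 1)) ℂ) (Z : Finset (Fin q))
    (ℓ : (Fin (N + 1) → ℂ) →ₗ[ℂ] (Fin (k + 1) → ℂ)), (∀ i, (F i).IsHomogeneous (d i)) →
    (∀ x, ℓ x = 0 → x = 0) → NoSparse F Z (k + 1) →
    ∀ g : Fin (M + 1) → ℂ → Fin (N + 1) → ℂ,
      (∀ s, EntireCurve (Ideal.span (St F Z)) (∏ i ∈ Zᶜ, F i) (g s)) →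
      (∀ s t, SameSections (fun z => ℓ (g s z)) fun z => ℓ (g t z)) →
      ∃ s t, s ≠ t ∧ DiagEq (fun z => ℓ (g s z)) fun z => ℓ (g t z) := by
  obtain ⟨M, hM⟩ := diag_or_weighted k (∑ i, d i + 1)
  refine ⟨M, fun N F Z ℓ hF hℓ hno g hg hs => ?_⟩
  obtain ⟨S, hS⟩ := ℓ.exists_leftInverse_of_injective (LinearMap.ker_eq_bot'.2 hℓ)
  have hS' : ∀ x, S (ℓ x) = x := fun x => LinearMap.congr_fun hS x
  have hq : ∑ i ∈ Zᶜ, d i ≤ ∑ i, d i + 1 := by
    have := Finset.sum_le_sum_of_subset (f := d) (Finset.subset_univ Zᶜ)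
    omega
  rcases hM (eqs F Z ℓ S) (eqs_hom hF) (ineq F Z S) _ hq (ineq_hom hF) (fun s z => ℓ (g s z))
    (fun s => ec_lift hS' (hg s)) hs with h | ⟨s, h⟩
  · exact h
  · exact absurd h (not_weighted hF hS' hno (hg s))

theorem bd (hF : ∀ i, (F i).IsHomogeneous (d i)) (hS : ∀ x, S (ℓ x) = x)
    (hno : NoSparse F Z (k + 1)) (hf : EntireCurve (Ideal.span (St F Z)) (∏ i ∈ Zᶜ, F i) f) :
    ∃ M, Bd M (idl fun z => ℓ (f z)) (ineq F Z S) := by
  have hq : ∑ i ∈ Zᶜ, d i ≤ ∑ i, d i + 1 := by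
    have := Finset.sum_le_sum_of_subset (f := d) (Finset.subset_univ Zᶜ)
    omega
  rcases bd_or_weighted (eqs_hom (ℓ := ℓ) (S := S) (Z := Z) hF) hq (ineq_hom hF) (ec_lift hS hf)
    with h | h
  · exact h
  · exact absurd h (not_weighted hF hS hno hf)

theorem closure_lift (ℓ : (Fin (N + 1) → ℂ) →ₗ[ℂ] (Fin (k + 1) → ℂ))
    {g : ℂ → Fin (N + 1) → ℂ} (h : SameClosure g f) :
    SameClosure (fun z => ℓ (g z)) fun z => ℓ (f z) := by
  rintro H ⟨e, he⟩
  have h1 := h (pull ℓ H) ⟨e, pull_hom ℓ he⟩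
  simp only [eval_pull] at h1
  exact h1

theorem curve_lift (hS : ∀ x, S (ℓ x) = x) {g g' : ℂ → Fin (N + 1) → ℂ}
    (h : SameCurve (fun z => ℓ (g z)) fun z => ℓ (g' z)) : SameCurve g g' := by
  intro z
  obtain ⟨c, hc⟩ := h z
  refine ⟨c, ?_⟩
  have h1 := congrArg S hc
  change S (ℓ (g z)) = S (c • ℓ (g' z)) at h1
  rwa [map_smul, hS, hS] at h1

/-- the finiteness properties of one curve -/
def Rig (C : (ℂ → Fin (N + 1) → ℂ) → Prop) (ℓ : (Fin (N + 1) → ℂ) →ₗ[ℂ] (Fin (k + 1) → ℂ))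
    (f : ℂ → Fin (N + 1) → ℂ) : Prop :=
  (∃ M : ℕ, ∀ g : Fin (M + 1) → ℂ → Fin (N + 1) → ℂ, (∀ s, C (g s)) →
    (∀ s, SameClosure (g s) f) → (∀ s, SameSections (fun z => ℓ (g s z)) fun z => ℓ (f z)) →
    ∃ s t, s ≠ t ∧ SameCurve (g s) (g t)) ∧
  (∀ h : ℂ → ℂ, Differentiable ℂ h → (∃ z w, h z ≠ h w) →
    SameSections (fun z => ℓ (f (h z))) (fun z => ℓ (f z)) →
    ∃ a b : ℂ, (∃ m : ℕ, 0 < m ∧ a ^ m = 1) ∧ ∀ z, h z = a * z + b) ∧
  ∀ b, SameSections (fun z => ℓ (f (z + b))) (fun z => ℓ (f z)) →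
    ∃ m : ℕ, 0 < m ∧ SameCurve (fun z => f (z + m * b)) f

theorem rig (hF : ∀ i, (F i).IsHomogeneous (d i)) (hℓ : ∀ x, ℓ x = 0 → x = 0)
    (hno : NoSparse F Z (k + 1)) (hf : EntireCurve (Ideal.span (St F Z)) (∏ i ∈ Zᶜ, F i) f) :
    Rig (EntireCurve (Ideal.span (St F Z)) (∏ i ∈ Zᶜ, F i)) ℓ f := by
  obtain ⟨S, hS⟩ := ℓ.exists_leftInverse_of_injective (LinearMap.ker_eq_bot'.2 hℓ)
  have hS' : ∀ x, S (ℓ x) = x := fun x => LinearMap.congr_fun hS x
  obtain ⟨M, hM⟩ := bd hF hS' hno hf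
  have hf' := ec_lift (S := S) hS' hf
  refine ⟨⟨M, fun g hg hc hs => ?_⟩, fun h hh hnc hs => subst_of_bd hM hf' hh hnc hs,
    fun b hb => ?_⟩
  · obtain ⟨s, t, hst, h1⟩ := fam_of_bd hM (fun s z => ℓ (g s z))
      (fun s => ec_lift (S := S) hS' (hg s)) (fun s => closure_lift ℓ (hc s)) hs
    exact ⟨s, t, hst, curve_lift hS' h1⟩
  · obtain ⟨m, hm, h1⟩ := per_of_bd hM hf' hb
    exact ⟨m, hm, curve_lift hS' (g := fun z => f (z + m * b)) h1⟩

/-- the translations of a curve in an affine stratum -/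
theorem rat (hF : ∀ i, (F i).IsHomogeneous (d i)) (hℓ : ∀ x, ℓ x = 0 → x = 0)
    (hno : NoSparse F Z (k + 1)) {i0 : Fin q} (hi0 : i0 ∉ Z) (hd0 : 0 < d i0)
    (hf : EntireCurve (Ideal.span (St F Z)) (∏ i ∈ Zᶜ, F i) f) :
    ∃ c : ℂ, ∀ b, SameSections (fun z => ℓ (f (z + b))) (fun z => ℓ (f z)) →
      ∃ r : ℚ, b = r * c := by
  obtain ⟨S, hS⟩ := ℓ.exists_leftInverse_of_injective (LinearMap.ker_eq_bot'.2 hℓ)
  have hS' : ∀ x, S (ℓ x) = x := fun x => LinearMap.congr_fun hS x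
  obtain ⟨M, hM⟩ := bd hF hS' hno hf
  have hf' := ec_lift (S := S) hS' hf
  refine periods hM (EC.idl hf') (zd_idl _) fun ω₁ ω₂ h1 h2 => ?_
  refine affine_not_torus hf' (ineq_hom hF) ?_ h1 h2
  have := Finset.single_le_sum (f := d) (fun _ _ => Nat.zero_le _) (Finset.mem_compl.2 hi0)
  omega

/-! ### general position -/

/-- Any `N + 1` of the `k + 1` linear forms are linearly independent. -/
def GenPos (ℓ : (Fin (N + 1) → ℂ) →ₗ[ℂ] (Fin (k + 1) → ℂ)) : Prop :=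
  ∀ I : Finset (Fin (k + 1)), I.card = N + 1 → ∀ x, (∀ i ∈ I, ℓ x i = 0) → x = 0

/-- a diagonal matrix which preserves a space in general position is a scalar -/
theorem scalar (hk : N + 1 ≤ k) (hG : GenPos ℓ) {D : Fin (k + 1) → ℂ}
    (hD : ∀ x, ∃ y, ∀ i, ℓ y i = D i * ℓ x i) (i j : Fin (k + 1)) : D i = D j := by
  classical
  by_contra hne
  have hij : i ≠ j := fun h => hne (by rw [h])
  -- a point where all coordinates in a set of `N` indices vanish
  obtain ⟨I, hI1, hI2⟩ : ∃ I : Finset (Fin (k + 1)), I ⊆ (Finset.univ.erase i).erase j ∧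
      I.card = N := by
    apply Finset.exists_subset_card_eq
    rw [Finset.card_erase_of_mem (Finset.mem_erase.2 ⟨hij.symm, Finset.mem_univ _⟩),
      Finset.card_erase_of_mem (Finset.mem_univ _), Finset.card_univ, Fintype.card_fin]
    omega
  have hiI : i ∉ I := fun h => by
    have := hI1 h
    simp at this
  have hjI : j ∉ I := fun h => by
    have := hI1 h
    simp at this
  -- nonzero `x` with `ℓ x l = 0` for `l ∈ I`
  obtain ⟨x, hx0, hx⟩ : ∃ x : Fin (N + 1) → ℂ, x ≠ 0 ∧ ∀ l ∈ I, ℓ x l = 0 := by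
    let T : (Fin (N + 1) → ℂ) →ₗ[ℂ] (I → ℂ) := LinearMap.pi fun l => LinearMap.proj (l : Fin (k + 1)) ∘ₗ ℓ
    have h1 : ¬ Function.Injective T := by
      intro h
      have h2 := LinearMap.finrank_le_finrank_of_injective h
      rw [Module.finrank_fintype_fun_eq_card, Module.finrank_fintype_fun_eq_card,
        Fintype.card_fin, Fintype.card_coe, hI2] at h2
      omega
    rw [← LinearMap.ker_eq_bot, Submodule.eq_bot_iff] at h1
    push Not at h1
    obtain ⟨x, hx, hx0⟩ := h1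
    refine ⟨x, hx0, fun l hl => ?_⟩
    have h2 := congrFun (LinearMap.mem_ker.1 hx) ⟨l, hl⟩
    exact h2
  obtain ⟨y, hy⟩ := hD x
  -- `y - D i x` vanishes on `I ∪ {i}`
  have h1 : y - D i • x = 0 := by
    refine hG (insert i I) (by rw [Finset.card_insert_of_notMem hiI, hI2]) _ fun l hl => ?_
    rw [map_sub, map_smul, Pi.sub_apply, Pi.smul_apply, smul_eq_mul, hy]
    rcases Finset.mem_insert.1 hl with rfl | hl
    · ring
    · rw [hx l hl]
      ring
  have h2 : ℓ x j ≠ 0 := by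
    intro h
    apply hx0
    refine hG (insert j I) (by rw [Finset.card_insert_of_notMem hjI, hI2]) _ fun l hl => ?_
    rcases Finset.mem_insert.1 hl with rfl | hl
    · exact h
    · exact hx l hl
  have h3 : ℓ y j = D i * ℓ x j := by
    rw [sub_eq_zero.1 h1, map_smul, Pi.smul_apply, smul_eq_mul]
  rw [hy] at h3
  exact hne (mul_right_cancel₀ h2 h3).symm

/-- The curve is not contained in a hyperplane. -/
def Nondeg (f : ℂ → Fin (N + 1) → ℂ) : Prop :=
  ∀ a : Fin (N + 1) → ℂ, (∀ z, ∑ j, a j * f z j = 0) → a = 0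

theorem span_top {g : ℂ → Fin (N + 1) → ℂ} (hg : Nondeg g) :
    Submodule.span ℂ (Set.range g) = ⊤ := by
  by_contra hne
  obtain ⟨φ, hφ0, hφ⟩ := Submodule.exists_le_ker_of_lt_top _ (lt_top_iff_ne_top.2 hne)
  apply hφ0
  have h1 : (fun j => φ (Pi.single j 1)) = 0 := by
    refine hg _ fun z => ?_
    have h2 := hφ (Submodule.subset_span ⟨z, rfl⟩)
    rw [LinearMap.mem_ker] at h2
    rw [← h2]
    have h3 : g z = ∑ j, g z j • (Pi.single j 1 : Fin (N + 1) → ℂ) := by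
      funext l
      simp [Finset.sum_apply, Pi.single_apply]
    conv_rhs => rw [h3]
    rw [map_sum]
    exact Finset.sum_congr rfl fun j _ => by rw [map_smul, smul_eq_mul, mul_comm]
  ext j
  simpa using congrFun h1 j

/-- Linearly nondegenerate curves in general position. -/
theorem eq_of_diag (hk : N + 1 ≤ k) (hG : GenPos ℓ) {g g' : ℂ → Fin (N + 1) → ℂ}
    (hn : Nondeg g') (h0 : ∀ z, g z ≠ 0) (h : DiagEq (fun z => ℓ (g z)) fun z => ℓ (g' z)) :
    SameCurve g g' := by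
  classical
  obtain ⟨D, hD0, hD⟩ := h
  have hinj : ∀ x, ℓ x = 0 → x = 0 := by
    intro x hx
    obtain ⟨I, -, hI⟩ := Finset.exists_subset_card_eq
      (s := (Finset.univ : Finset (Fin (k + 1)))) (n := N + 1) (by
        rw [Finset.card_univ, Fintype.card_fin]; omega)
    exact hG I hI x fun i _ => by rw [hx]; rfl
  have hall : ∀ x, ∃ y, ∀ i, ℓ y i = D i * ℓ x i := by
    intro x
    have hx : x ∈ Submodule.span ℂ (Set.range g') := by
      rw [span_top hn]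
      trivial
    induction hx using Submodule.span_induction with
    | mem x h =>
      obtain ⟨z, rfl⟩ := h
      obtain ⟨c, hc⟩ := hD z
      have hc' : ∀ i, ℓ (g z) i = c * (D i * ℓ (g' z) i) := fun i => congrFun hc i
      have hc0 : c ≠ 0 := by
        rintro rfl
        apply h0 z
        apply hinj
        funext i
        rw [hc', zero_mul]
        rfl
      refine ⟨c⁻¹ • g z, fun i => ?_⟩
      have h1 := hc' i
      rw [map_smul, Pi.smul_apply, smul_eq_mul]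
      rw [h1, ← mul_assoc, inv_mul_cancel₀ hc0, one_mul]
    | zero => exact ⟨0, fun i => by rw [map_zero]; simp⟩
    | add x y _ _ hx hy =>
      obtain ⟨x', hx'⟩ := hx
      obtain ⟨y', hy'⟩ := hy
      refine ⟨x' + y', fun i => ?_⟩
      rw [map_add, map_add, Pi.add_apply, Pi.add_apply, hx', hy', mul_add]
    | smul a x _ hx =>
      obtain ⟨x', hx'⟩ := hx
      refine ⟨a • x', fun i => ?_⟩
      rw [map_smul, map_smul, Pi.smul_apply, Pi.smul_apply, hx', smul_eq_mul, smul_eq_mul]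
      ring
  have hsc := scalar hk hG hall
  intro z
  obtain ⟨c, hc⟩ := hD z
  refine ⟨c * D 0, ?_⟩
  have h2 : ℓ (g z - (c * D 0) • g' z) = 0 := by
    funext i
    have h1 : ℓ (g z) i = c * (D i * ℓ (g' z) i) := congrFun hc i
    rw [map_sub, map_smul, Pi.sub_apply, Pi.smul_apply, smul_eq_mul, Pi.zero_apply]
    rw [h1, hsc i 0]
    ring
  exact sub_eq_zero.1 (hinj _ h2)

end Pool.Agent.Q72.GH
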