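import Pool.Agent.Q72.GH.Main
import Pool.Agent.Q72.SH.RigAlg

/-!
Strata without nonconstant curves with any number of terms.
-/

set_option autoImplicit false

namespace Pool.Agent.Q72.GH

open Finset MvPolynomial
open Pool.Agent.Q72.SH Pool.Agent.H533R3.SL Pool.Agent.TH143.GT Pool.Agent.W602.GT
open Pool.Agent.W603.BPR (EntireCurve)

variable {N k q : ℕ} {F : Fin q → MvPolynomial (Fin (N + 1)) ℂ} {Z : Finset (Fin q)}
  {ℓ : (Fin (N + 1) → ℂ) →ₗ[ℂ] (Fin (k + 1) → ℂ)}
  {S : (Fin (k + 1) → ℂ) →ₗ[ℂ] (Fin (N + 1) → ℂ)} {d : Fin q → ℕ} {f : ℂ → Fin (N + 1) → ℂ}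

/-- There are no nonconstant morphisms from the multiplicative group. -/
theorem gm_const (hS : ∀ x, S (ℓ x) = x) (hno : ∀ r, NoSparse F Z r) :
    GmIn (eqs F Z ℓ S) (ineq F Z S) {1} := by
  classical
  rintro T hT ⟨s, t, hs, ht, hst⟩
  exfalso
  -- the polynomial curve in the stratum
  set P : Fin (N + 1) → Polynomial ℂ := fun i => ∑ j, Polynomial.C (S (Pi.single j 1) i) * T j
    with hP
  have hPe : ∀ u : ℂ, (fun i => (P i).eval u) = S (fun j => (T j).eval u) := by
    intro u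
    funext i
    rw [lin_sum, hP]
    simp only [Polynomial.eval_finsetSum, Polynomial.eval_mul, Polynomial.eval_C]
  obtain ⟨B, hB⟩ : ∃ B, ∀ i, (P i).natDegree < B :=
    ⟨∑ i, (P i).natDegree + 1, fun i => Nat.lt_succ_of_le
      (Finset.single_le_sum (f := fun i => (P i).natDegree) (fun _ _ => Nat.zero_le _)
        (Finset.mem_univ i))⟩
  set c : Fin B → Fin (N + 1) → ℂ := fun j i => (P i).coeff j with hc
  have hcur : ∀ i, cur c (fun j : Fin B => (j : ℕ)) i = P i := by
    intro i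
    unfold cur
    rw [(P i).as_sum_range' B (hB i), ← Fin.sum_univ_eq_sum_range
      (fun j => Polynomial.monomial j ((P i).coeff j)) B]
    refine Finset.sum_congr rfl fun j _ => ?_
    rw [Polynomial.C_mul_X_pow_eq_monomial]
  have hae : ∀ (G : MvPolynomial (Fin (N + 1)) ℂ) (u : ℂ),
      (aeval (cur c (fun j : Fin B => (j : ℕ))) G : Polynomial ℂ).eval u =
        eval (S (fun j => (T j).eval u)) G := by
    intro G u
    have h1 : (aeval (cur c (fun j : Fin B => (j : ℕ))) G : Polynomial ℂ).eval u =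
        (Polynomial.aeval u : Polynomial ℂ →ₐ[ℂ] ℂ)
          (aeval (cur c (fun j : Fin B => (j : ℕ))) G) := by
      rw [Polynomial.coe_aeval_eq_eval]
    rw [h1, comp_aeval_apply, ← aeval_eq_eval, ← hPe]
    congr 2
    funext i
    rw [Polynomial.coe_aeval_eq_eval, hcur]
  have hTS : ∀ u : ℂ, u ≠ 0 → ℓ (S (fun j => (T j).eval u)) = fun j => (T j).eval u := by
    intro u hu
    funext l
    have h1 := hT.mem u hu _ (Or.inl ⟨l, rfl⟩)
    rw [map_sub, eval_X, eval_pm, LinearMap.comp_apply] at h1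
    exact (sub_eq_zero.1 h1).symm
  have hz1 : ∀ i ∈ Z, aeval (cur c fun j : Fin B => (j : ℕ)) (F i) = 0 := by
    intro i hi
    apply Polynomial.eq_zero_of_infinite_isRoot
    refine Set.Infinite.mono (s := {u : ℂ | u ≠ 0}) ?_ ?_
    · intro u hu
      change (aeval (cur c fun j : Fin B => (j : ℕ)) (F i) : Polynomial ℂ).eval u = 0
      have h1 := hT.mem u hu _ (Or.inr ⟨i, hi, rfl⟩)
      rw [hae, ← eval_pull]
      exact h1
    · exact (Set.finite_singleton (0 : ℂ)).infinite_compl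
  have hz2 : ∀ i, i ∉ Z → ∃ v, (aeval (cur c fun j : Fin B => (j : ℕ)) (F i)).coeff v ≠ 0 ∧
      ∀ t, t ≠ v → (aeval (cur c fun j : Fin B => (j : ℕ)) (F i)).coeff t = 0 := by
    intro i hi
    have hne : ∀ u : ℂ, u ≠ 0 →
        (aeval (cur c fun j : Fin B => (j : ℕ)) (F i) : Polynomial ℂ).eval u ≠ 0 := by
      intro u hu h0
      apply hT.off u hu
      rw [eval_ineq]
      refine Finset.prod_eq_zero (Finset.mem_compl.2 hi) ?_
      rw [← hae]
      exact h0
    obtain ⟨e, v, he, hev⟩ := Pool.Agent.Q72.SH.eq_mono hne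
    exact mono_of_dvd he (dvd_of_eq hev)
  have hconst := hno B c (fun j => (j : ℕ)) hz1 hz2
  -- conclusion
  have h1 : ∀ u : ℂ, u ≠ 0 → ∃ w : ℂ, w ≠ 0 ∧ (fun j => (T j).eval u) =
      w • fun j => (T j).eval 1 := by
    intro u hu
    have hne1 : S (fun j => (T j).eval 1) ≠ 0 := by
      intro h
      apply hT.ne 1 one_ne_zero
      rw [← hTS 1 one_ne_zero, h, map_zero]
    obtain ⟨i0, hi0⟩ : ∃ i0, S (fun j => (T j).eval 1) i0 ≠ 0 := by
      by_contra hcon
      push Not at hcon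
      exact hne1 (funext hcon)
    have hP1 : ∀ i, ∑ j, c j i = S (fun j => (T j).eval 1) i := by
      intro i
      have h2 := congrArg (Polynomial.eval 1) (hcur i)
      rw [eval_cur] at h2
      simp only [one_pow, mul_one] at h2
      rw [h2]
      exact congrFun (hPe 1) i
    have h2 : S (fun j => (T j).eval u) = (S (fun j => (T j).eval u) i0 /
        S (fun j => (T j).eval 1) i0) • S (fun j => (T j).eval 1) := by
      funext i
      rw [Pi.smul_apply, smul_eq_mul, div_mul_eq_mul_div, eq_div_iff hi0]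
      have h3 := congrArg (Polynomial.eval u) (hconst i i0)
      rw [Polynomial.eval_mul, Polynomial.eval_mul, Polynomial.eval_C, Polynomial.eval_C, hcur,
        hcur, hP1, hP1] at h3
      have h4 : ∀ i, (P i).eval u = S (fun j => (T j).eval u) i := fun i => congrFun (hPe u) i
      rw [h4, h4] at h3
      exact h3
    have h3 : (fun j => (T j).eval u) = (S (fun j => (T j).eval u) i0 /
        S (fun j => (T j).eval 1) i0) • fun j => (T j).eval 1 := by
      have h4 := congrArg ℓ h2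
      rw [hTS u hu, map_smul, hTS 1 one_ne_zero] at h4
      exact h4
    refine ⟨_, ?_, h3⟩
    intro h0
    rw [h0, zero_smul] at h3
    exact hT.ne u hu h3
  obtain ⟨w, hw0, hw⟩ := h1 s hs
  obtain ⟨w', hw0', hw'⟩ := h1 t ht
  apply hst (w / w')
  rw [hw, hw', smul_smul, div_mul_cancel₀ _ hw0']

theorem et_lift {f : ℂ → Fin (N + 1) → ℂ} (ℓ : (Fin (N + 1) → ℂ) →ₗ[ℂ] (Fin (k + 1) → ℂ))
    (hf : ExpType f) : ExpType fun z => ℓ (f z) := by
  classical
  obtain ⟨C, hC⟩ := hf
  refine expType_of fun i => ?_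
  have h1 : ∀ s : Finset (Fin (N + 1)), ET fun z => ∑ j ∈ s, ℓ (Pi.single j 1) i * f z j := by
    intro s
    induction s using Finset.induction_on with
    | empty => simpa using ET.const 0
    | insert a s ha ih =>
      simp only [Finset.sum_insert ha]
      exact ((ET.const _).mul ⟨C, fun z => hC z a⟩).add ih
  have h2 := h1 Finset.univ
  have h3 : (fun z => ℓ (f z) i) = fun z => ∑ j, ℓ (Pi.single j 1) i * f z j :=
    funext fun z => lin_sum ℓ (f z) i
  rw [h3]
  exact h2

/-- translations and exponential type -/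
theorem exp_zero (hF : ∀ i, (F i).IsHomogeneous (d i)) (hℓ : ∀ x, ℓ x = 0 → x = 0)
    (hno : ∀ r, NoSparse F Z r) (hf : EntireCurve (Ideal.span (St F Z)) (∏ i ∈ Zᶜ, F i) f)
    (hE : ExpType f) {b : ℂ} (hb : SameSections (fun z => ℓ (f (z + b))) (fun z => ℓ (f z))) :
    b = 0 := by
  obtain ⟨S, hS⟩ := ℓ.exists_leftInverse_of_injective (LinearMap.ker_eq_bot'.2 hℓ)
  have hS' : ∀ x, S (ℓ x) = x := fun x => LinearMap.congr_fun hS x
  have hq : ∑ i ∈ Zᶜ, d i ≤ ∑ i, d i + 1 := by
    have := Finset.sum_le_sum_of_subset (f := d) (Finset.subset_univ Zᶜ)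
    omega
  have h1 := (rigid_of_gmIn (J := {1}) (eqs_hom (ℓ := ℓ) (S := S) (Z := Z) hF) hq (ineq_hom hF)
    (by rintro H rfl; exact ⟨0, isHomogeneous_one _ _⟩) (gm_const hS' hno) (ec_lift hS' hf)
    ⟨0, fun h => by
      have h2 := h 1 rfl
      rw [map_one] at h2
      exact one_ne_zero h2⟩).1
  exact h1.2.2.2.1 (et_lift ℓ hE) b hb

end Pool.Agent.Q72.GH
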